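import Pool.Agent.N396.ZK.Stm

/-!
Project ZK (helper396): Hölder step (by helper999).
-/

set_option autoImplicit false

namespace Pool.Agent.N999.ZK

open Finset Pool.Agent.N396.ZK

theorem nm_nonneg {ι : Type} (s : ℕ) (I : Finset ι) (f : ι → ℝ) (hf : ∀ i ∈ I, 0 ≤ f i) :
    0 ≤ nm s I f :=
  Real.rpow_nonneg (Finset.sum_nonneg fun i hi => pow_nonneg (hf i hi) _) _

theorem nm_pow {ι : Type} (s : ℕ) (hs : 1 ≤ s) (I : Finset ι) (f : ι → ℝ)
    (hf : ∀ i ∈ I, 0 ≤ f i) : nm s I f ^ s = ∑ i ∈ I, f i ^ s := by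
  have h0 : 0 ≤ ∑ i ∈ I, f i ^ s := Finset.sum_nonneg fun i hi => pow_nonneg (hf i hi) _
  unfold nm
  rw [one_div, Real.rpow_inv_natCast_pow h0 (by omega)]

/-- Hölder with the exponents `s / (s - 1)` and `s` -/
theorem holder {ι : Type} (s : ℕ) (hs : 1 ≤ s) (I : Finset ι) (f g : ι → ℝ)
    (hf : ∀ i ∈ I, 0 ≤ f i) (hg : ∀ i ∈ I, 0 ≤ g i) :
    ∑ i ∈ I, f i ^ (s - 1) * g i ≤ nm s I f ^ (s - 1) * nm s I g := by
  rcases Nat.lt_or_ge 1 s with h1 | h1
  · have hs1 : (1 : ℝ) < s := by exact_mod_cast h1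
    have hs0 : (0 : ℝ) < (s : ℝ) - 1 := by linarith
    have hs2 : ((s - 1 : ℕ) : ℝ) = (s : ℝ) - 1 := by
      rw [Nat.cast_sub hs]
      simp
    have hpq : ((s : ℝ) / ((s : ℝ) - 1)).HolderConjugate s := by
      rw [Real.holderConjugate_iff]
      refine ⟨?_, ?_⟩
      · rw [lt_div_iff₀ hs0]
        linarith
      · field_simp
        ring
    have h2 := Real.inner_le_Lp_mul_Lq_of_nonneg I hpq (f := fun i => f i ^ (s - 1)) (g := g)
      (fun i hi => pow_nonneg (hf i hi) _) hg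
    refine h2.trans (le_of_eq ?_)
    have h3 : ∑ i ∈ I, (f i ^ (s - 1)) ^ ((s : ℝ) / ((s : ℝ) - 1)) = ∑ i ∈ I, f i ^ s := by
      refine Finset.sum_congr rfl fun i hi => ?_
      rw [← Real.rpow_natCast, ← Real.rpow_mul (hf i hi), hs2, ← Real.rpow_natCast (f i) s]
      congr 1
      field_simp
    have h4 : (∑ i ∈ I, g i ^ (s : ℝ)) = ∑ i ∈ I, g i ^ s := by
      refine Finset.sum_congr rfl fun i _ => ?_
      rw [Real.rpow_natCast]
    have h0 : 0 ≤ ∑ i ∈ I, f i ^ s := Finset.sum_nonneg fun i hi => pow_nonneg (hf i hi) _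
    rw [h3, h4]
    unfold nm
    congr 1
    rw [← Real.rpow_natCast, ← Real.rpow_mul h0, hs2]
    congr 1
    field_simp
  · have h1 : s = 1 := le_antisymm h1 hs
    subst h1
    simp [nm]

theorem hs : StmHS := by
  intro ι s hs I m a ρ κ E hm ha hρ hκ hE h1 h2
  obtain ⟨N, hN⟩ : ∃ N, N = nm s I a := ⟨_, rfl⟩
  have hN0 : 0 ≤ N := by rw [hN]; exact nm_nonneg s I a ha
  have hNs : N ^ s = ∑ i ∈ I, a i ^ s := by rw [hN]; exact nm_pow s hs I a ha
  rw [← hN]
  have hR : 0 ≤ κ * ∑ y ∈ I, a y + I.card * E := by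
    have := Finset.sum_nonneg ha
    positivity
  rcases hN0.eq_or_lt with h0 | hNpos
  · rw [← h0, mul_zero]
    exact hR
  have h3 : ρ * N * N ^ (s - 1) ≤ (κ * ∑ y ∈ I, a y + I.card * E) * N ^ (s - 1) := by
    have e1 : ∀ x : ℝ, x ^ (s - 1) * x = x ^ s := fun x => by
      rw [← pow_succ, Nat.sub_add_cancel hs]
    calc ρ * N * N ^ (s - 1) = ρ * N ^ s := by rw [← e1 N]; ring
      _ = ∑ y ∈ I, a y ^ (s - 1) * (ρ * a y) := by
        rw [hNs, Finset.mul_sum]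
        refine Finset.sum_congr rfl fun y _ => ?_
        rw [← e1 (a y)]
        ring
      _ ≤ ∑ y ∈ I, a y ^ (s - 1) * ∑ z ∈ I, m y z :=
        Finset.sum_le_sum fun y hy =>
          mul_le_mul_of_nonneg_left (h1 y hy) (pow_nonneg (ha y hy) _)
      _ = ∑ z ∈ I, ∑ y ∈ I, a y ^ (s - 1) * m y z := by
        simp_rw [Finset.mul_sum]
        exact Finset.sum_comm
      _ ≤ ∑ z ∈ I, N ^ (s - 1) * (κ * a z + E) := by
        refine Finset.sum_le_sum fun z hz => ?_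
        refine (holder s hs I a (fun y => m y z) ha fun y hy => hm y hy z hz).trans ?_
        rw [← hN]
        exact mul_le_mul_of_nonneg_left (h2 z hz) (pow_nonneg hN0 _)
      _ = (κ * ∑ y ∈ I, a y + I.card * E) * N ^ (s - 1) := by
        rw [← Finset.mul_sum, Finset.sum_add_distrib, ← Finset.mul_sum, Finset.sum_const,
          nsmul_eq_mul]
        ring
  exact le_of_mul_le_mul_right h3 (pow_pos hNpos _)

end Pool.Agent.N999.ZK
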